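import Pool.Agent.Lib.FPT.I.Defs

set_option autoImplicit false
set_option linter.unusedVariables false

/-!
# FRa: modules with a free resolution of length k

PROOFS. `fr_equiv`: compose `f` with `e`; `ker (e ∘ f) = ker f`. `fr_succ`: for `k = 0` take `f = e.symm` for
`e : M ≃ (Fin n → R)`, with kernel `0 ≃ (Fin 0 → R)`; induction. `fr_ext` (horseshoe): by induction on `k`.
`k = 0`: `M''` is free, so `g` splits and `M ≃ M' × M'' ≃ (Fin (a + b) → R)`. `k + 1`: choose
`f' : (Fin a → R) → M'`, `f'' : (Fin b → R) → M''` with kernels in `FR k`; lift `f''` through `g` to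
`h : (Fin b → R) → M`; the map `(Fin a → R) × (Fin b → R) → M`, `(x, y) ↦ f (f' x) + h y` is surjective, and its kernel
is an extension of `ker f''` by `ker f'` (`x ↦ (x, 0)`, `(x, y) ↦ y`; surjective onto `ker f''` because for
`f'' y = 0` the element `h y` is in `ker g = range f = f (range f')`).
-/

universe u v w

namespace Pool.Agent.Lib.FPT.I

open Pool.Agent.Lib.MP_16fe43_al
open MulAction (stabilizer)
open Matrix (fromBlocks vecMul)
open scoped TensorProduct

variable {R : Type u} [Ring R] {M M' M'' : Type u} [AddCommGroup M] [Module R M]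
  [AddCommGroup M'] [Module R M'] [AddCommGroup M''] [Module R M'']


theorem fr_equiv {k : ℕ} (e : M ≃ₗ[R] M') (h : FR R k M) : FR R k M' := by
  cases k with
  | zero =>
    obtain ⟨n, ⟨φ⟩⟩ := h
    exact ⟨n, ⟨e.symm.trans φ⟩⟩
  | succ k =>
    obtain ⟨n, f, hf, hk⟩ := h
    refine ⟨n, e.toLinearMap.comp f, e.surjective.comp hf, ?_⟩
    rw [LinearEquiv.ker_comp]
    exact hk

private theorem fra_succ (k : ℕ) : ∀ (M : Type u) [AddCommGroup M] [Module R M],
    FR R k M → FR R (k + 1) M := by
  induction k with
  | zero =>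
    intro M _ _ h
    obtain ⟨n, ⟨e⟩⟩ := h
    refine ⟨n, e.symm.toLinearMap, e.symm.surjective, ?_⟩
    rw [LinearEquiv.ker]
    exact ⟨0, ⟨0⟩⟩
  | succ k ih =>
    intro M _ _ h
    obtain ⟨n, f, hf, hk⟩ := h
    exact ⟨n, f, hf, ih _ hk⟩

theorem fr_succ {k : ℕ} (h : FR R k M) : FR R (k + 1) M := fra_succ k M h

theorem fr_mono {k l : ℕ} (hkl : k ≤ l) (h : FR R k M) : FR R l M := by
  induction l, hkl using Nat.le_induction with
  | base => exact h
  | succ l _ ih => exact fr_succ ih

/-- the standard isomorphism -/
private def fraE (R : Type u) [Ring R] (a b : ℕ) :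
    (Fin (a + b) → R) ≃ₗ[R] (Fin a → R) × (Fin b → R) :=
  (LinearEquiv.funCongrLeft R R finSumFinEquiv).trans
    (LinearEquiv.sumArrowLequivProdArrow (Fin a) (Fin b) R R)

private theorem fra_split {A B M M'' : Type u} [AddCommGroup A] [Module R A]
    [AddCommGroup B] [Module R B] [AddCommGroup M] [Module R M] [AddCommGroup M''] [Module R M'']
    {f : A →ₗ[R] M} {g : M →ₗ[R] M''} {s : B →ₗ[R] M} (hfg : LinearMap.range f = LinearMap.ker g)
    {t : B →ₗ[R] M''} (hs : g.comp s = t) (ht : Function.Surjective t) :
    Function.Surjective (f.coprod s) := by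
  intro m
  obtain ⟨y, hy⟩ := ht (g m)
  have h1 : m - s y ∈ LinearMap.range f := by
    rw [hfg, LinearMap.mem_ker, map_sub, ← hy, ← hs, LinearMap.comp_apply, sub_self]
  obtain ⟨x, hx⟩ := h1
  refine ⟨(x, y), ?_⟩
  rw [LinearMap.coprod_apply]
  show f x + s y = m
  rw [hx, sub_add_cancel]

private theorem fra_ext (k : ℕ) : ∀ (M M' M'' : Type u) [AddCommGroup M] [Module R M]
    [AddCommGroup M'] [Module R M'] [AddCommGroup M''] [Module R M'']
    (f : M' →ₗ[R] M) (g : M →ₗ[R] M''), Function.Injective f →
    Function.Surjective g → LinearMap.range f = LinearMap.ker g → FR R k M' →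
    FR R k M'' → FR R k M := by
  induction k with
  | zero =>
    intro M M' M'' _ _ _ _ _ _ f g hf hg hfg h' h''
    obtain ⟨a, ⟨e'⟩⟩ := h'
    obtain ⟨b, ⟨e''⟩⟩ := h''
    obtain ⟨s, hs⟩ := Module.projective_lifting_property g e''.symm.toLinearMap hg
    have h1 : Function.Surjective ((f.comp e'.symm.toLinearMap).coprod s) := by
      refine fra_split (t := e''.symm.toLinearMap) ?_ hs e''.symm.surjective
      rw [LinearMap.range_comp, LinearEquiv.range, Submodule.map_top, hfg]
    have h2 : Function.Injective ((f.comp e'.symm.toLinearMap).coprod s) := by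
      rw [injective_iff_map_eq_zero]
      rintro ⟨x, y⟩ hxy
      rw [LinearMap.coprod_apply] at hxy
      have hxy' : f (e'.symm x) + s y = 0 := hxy
      have h3 : g (s y) = e''.symm y := LinearMap.congr_fun hs y
      have h4 : g (f (e'.symm x)) = 0 := by
        have : f (e'.symm x) ∈ LinearMap.ker g := by
          rw [← hfg]
          exact ⟨_, rfl⟩
        exact this
      have h5 : e''.symm y = 0 := by
        have := congrArg g hxy'
        rw [map_add, h4, zero_add, map_zero, h3] at this
        exact this
      have hy : y = 0 := by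
        have := congrArg e'' h5
        rw [LinearEquiv.apply_symm_apply, map_zero] at this
        exact this
      rw [hy, map_zero, add_zero] at hxy'
      have h6 : e'.symm x = 0 := hf (by rw [hxy', map_zero])
      have hx : x = 0 := by
        have := congrArg e' h6
        rw [LinearEquiv.apply_symm_apply, map_zero] at this
        exact this
      rw [hx, hy]
      rfl
    exact ⟨a + b, ⟨((fraE R a b).trans (LinearEquiv.ofBijective _ ⟨h2, h1⟩)).symm⟩⟩
  | succ k ih =>
    intro M M' M'' _ _ _ _ _ _ f g hf hg hfg h' h''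
    obtain ⟨a, f', hf', hk'⟩ := h'
    obtain ⟨b, f'', hf'', hk''⟩ := h''
    obtain ⟨s, hs⟩ := Module.projective_lifting_property g f'' hg
    have hs' : ∀ y, g (s y) = f'' y := fun y => LinearMap.congr_fun hs y
    have hgf : ∀ x, g (f x) = 0 := by
      intro x
      have : f x ∈ LinearMap.ker g := by
        rw [← hfg]
        exact ⟨_, rfl⟩
      exact this
    have hsur : Function.Surjective ((f.comp f').coprod s) := by
      refine fra_split (t := f'') ?_ hs hf''
      rw [LinearMap.range_comp, LinearMap.range_eq_top.mpr hf', Submodule.map_top, hfg]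
    have hmem : ∀ x y, (x, y) ∈ LinearMap.ker ((f.comp f').coprod s) ↔ f (f' x) + s y = 0 := by
      intro x y
      rw [LinearMap.mem_ker, LinearMap.coprod_apply]
      rfl
    let i : LinearMap.ker f' →ₗ[R] LinearMap.ker ((f.comp f').coprod s) :=
      LinearMap.codRestrict _ ((LinearMap.inl R (Fin a → R) (Fin b → R)).comp
        (LinearMap.ker f').subtype) (fun x => by
          have hx : f' x = 0 := x.2
          refine (hmem (x : Fin a → R) 0).mpr ?_
          rw [hx, map_zero, map_zero, add_zero])
    let p : LinearMap.ker ((f.comp f').coprod s) →ₗ[R] LinearMap.ker f'' :=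
      LinearMap.codRestrict _ ((LinearMap.snd R (Fin a → R) (Fin b → R)).comp
        (LinearMap.ker ((f.comp f').coprod s)).subtype) (fun z => by
          obtain ⟨⟨x, y⟩, hz⟩ := z
          rw [hmem] at hz
          have h1 := congrArg g hz
          rw [map_add, hgf, zero_add, map_zero, hs'] at h1
          exact h1)
    have hi : Function.Injective i := by
      intro x y hxy
      have h1 : (i x).1.1 = (i y).1.1 := by rw [hxy]
      exact Subtype.ext h1
    have hp : Function.Surjective p := by
      rintro ⟨y, hy⟩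
      have h1 : s y ∈ LinearMap.range f := by
        rw [hfg, LinearMap.mem_ker, hs']
        exact hy
      obtain ⟨m', hm'⟩ := h1
      obtain ⟨x, hx⟩ := hf' m'
      refine ⟨⟨(-x, y), ?_⟩, ?_⟩
      · rw [hmem, map_neg, map_neg, hx, hm', neg_add_cancel]
      · rfl
    have hip : LinearMap.range i = LinearMap.ker p := by
      ext z
      constructor
      · rintro ⟨x, rfl⟩
        rw [LinearMap.mem_ker]
        rfl
      · intro hz
        obtain ⟨⟨x, y⟩, hxy⟩ := z
        have hy : y = 0 := congrArg Subtype.val (LinearMap.mem_ker.mp hz)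
        subst hy
        have h1 := (hmem x 0).mp hxy
        rw [map_zero, add_zero] at h1
        have h2 : f' x = 0 := hf (by rw [h1, map_zero])
        exact ⟨⟨x, h2⟩, rfl⟩
    have hker := ih _ _ _ i p hi hp hip hk' hk''
    refine ⟨a + b, ((f.comp f').coprod s).comp (fraE R a b).toLinearMap,
      hsur.comp (fraE R a b).surjective, ?_⟩
    rw [LinearMap.ker_comp]
    exact fr_equiv ((fraE R a b).ofSubmodule' _).symm hker

theorem fr_ext {k : ℕ} (f : M' →ₗ[R] M) (g : M →ₗ[R] M'') (hf : Function.Injective f)
    (hg : Function.Surjective g) (hfg : LinearMap.range f = LinearMap.ker g) (h' : FR R k M')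
    (h'' : FR R k M'') : FR R k M :=
  fra_ext k M M' M'' f g hf hg hfg h' h''

end Pool.Agent.Lib.FPT.I
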