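import Pool.Agent.Lib.FPT.I.Defs
import Pool.Agent.Lib.FPT.I.FRa

set_option autoImplicit false
set_option linter.unusedVariables false

/-!
# FRb: two out of three

PROOFS. `ffm_ext`: `fr_mono`, `fr_ext`. `ffm_quot`: let `p : (Fin n → R) → M` be surjective with kernel `K` in
`FR k` (`fr_succ` if necessary). `g ∘ p` is surjective, its kernel `L` is the preimage of `range f ≃ M'`:
`0 → K → L → M' → 0`, so `FFM L` by `ffm_ext`, and `FFM M''` by definition (`k + 1`). `ffm_sub`: let
`p : (Fin n → R) → M''` be surjective with kernel `K`, `FFM K`. Pullback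
`P = {(x, y) ∈ M × (Fin n → R) | g x = p y}` (`LinearMap.eqLocus` or a kernel): `0 → K → P → M → 0` gives
`FFM P`; and `0 → M' → P → (Fin n → R) → 0` splits, `P ≃ M' × (Fin n → R)`; so
`0 → (Fin n → R) → P → M' → 0` is exact (with the projection to `M'`) and `ffm_quot` gives `FFM M'`.
`ffm_pi`: induction on `r`, `Fin.consEquiv`-type isomorphism `(∀ i, M i) ≃ M 0 × ∀ i, M (succ i)`, `ffm_ext`.
-/

universe u v w

namespace Pool.Agent.Lib.FPT.I

open Pool.Agent.Lib.MP_16fe43_al
open MulAction (stabilizer)
open Matrix (fromBlocks vecMul)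
open scoped TensorProduct

variable {R : Type u} [Ring R] {M M' M'' : Type u} [AddCommGroup M] [Module R M]
  [AddCommGroup M'] [Module R M'] [AddCommGroup M''] [Module R M'']


theorem ffm_equiv (e : M ≃ₗ[R] M') (h : FFM R M) : FFM R M' := by
  obtain ⟨k, hk⟩ := h
  exact ⟨k, fr_equiv e hk⟩

theorem ffm_ext (f : M' →ₗ[R] M) (g : M →ₗ[R] M'') (hf : Function.Injective f)
    (hg : Function.Surjective g) (hfg : LinearMap.range f = LinearMap.ker g) (h' : FFM R M')
    (h'' : FFM R M'') : FFM R M := by
  obtain ⟨k, hk⟩ := h'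
  obtain ⟨l, hl⟩ := h''
  exact ⟨max k l, fr_ext f g hf hg hfg (fr_mono (le_max_left k l) hk)
    (fr_mono (le_max_right k l) hl)⟩

theorem ffm_quot (f : M' →ₗ[R] M) (g : M →ₗ[R] M'') (hf : Function.Injective f)
    (hg : Function.Surjective g) (hfg : LinearMap.range f = LinearMap.ker g) (h' : FFM R M')
    (h : FFM R M) : FFM R M'' := by
  obtain ⟨k, hk⟩ := h
  obtain ⟨n, p, hp, hK⟩ : FR R (k + 1) M := fr_succ hk
  -- the kernel of `g ∘ p`
  have hmem : ∀ x : Fin n → R, x ∈ LinearMap.ker (g.comp p) → p x ∈ LinearMap.range f := by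
    intro x hx
    rw [hfg, LinearMap.mem_ker]
    exact hx
  let e : M' ≃ₗ[R] LinearMap.range f := LinearEquiv.ofInjective f hf
  let q : LinearMap.ker (g.comp p) →ₗ[R] LinearMap.range f :=
    LinearMap.codRestrict _ (p.comp (LinearMap.ker (g.comp p)).subtype) (fun x => hmem x x.2)
  let i : LinearMap.ker p →ₗ[R] LinearMap.ker (g.comp p) :=
    LinearMap.codRestrict _ (LinearMap.ker p).subtype (fun x => by
      have hx : p x = 0 := x.2
      rw [LinearMap.mem_ker, LinearMap.comp_apply]
      show g (p x) = 0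
      rw [hx, map_zero])
  have hi : Function.Injective i := by
    intro x y hxy
    have h1 : (i x).1 = (i y).1 := by rw [hxy]
    exact Subtype.ext h1
  have hq : Function.Surjective q := by
    rintro ⟨y, hy⟩
    obtain ⟨x, hx⟩ := hp y
    have hx2 : x ∈ LinearMap.ker (g.comp p) := by
      rw [LinearMap.mem_ker, LinearMap.comp_apply, hx]
      have : y ∈ LinearMap.ker g := hfg ▸ hy
      exact this
    exact ⟨⟨x, hx2⟩, Subtype.ext hx⟩
  have hiq : LinearMap.range i = LinearMap.ker q := by
    ext z
    constructor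
    · rintro ⟨x, rfl⟩
      rw [LinearMap.mem_ker]
      refine Subtype.ext ?_
      exact x.2
    · intro hz
      have h1 : p z = 0 := congrArg Subtype.val (LinearMap.mem_ker.1 hz)
      exact ⟨⟨z, h1⟩, Subtype.ext rfl⟩
  have hL : FFM R (LinearMap.ker (g.comp p)) :=
    ffm_ext i q hi hq hiq ⟨k, hK⟩ (ffm_equiv e h')
  obtain ⟨l, hl⟩ := hL
  exact ⟨l + 1, n, g.comp p, hg.comp hp, hl⟩

theorem ffm_free (n : ℕ) : FFM R (Fin n → R) := ⟨0, n, ⟨LinearEquiv.refl R _⟩⟩

/-- the product of a module with a free module -/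
private theorem ffm_prod_free {A : Type u} [AddCommGroup A] [Module R A] (n : ℕ)
    (h : FFM R (A × (Fin n → R))) : FFM R A := by
  refine ffm_quot (LinearMap.inr R A (Fin n → R)) (LinearMap.fst R A (Fin n → R))
    LinearMap.inr_injective LinearMap.fst_surjective ?_ (ffm_free n) h
  rw [LinearMap.range_inr]

theorem ffm_sub (f : M' →ₗ[R] M) (g : M →ₗ[R] M'') (hf : Function.Injective f)
    (hg : Function.Surjective g) (hfg : LinearMap.range f = LinearMap.ker g) (h : FFM R M)
    (h'' : FFM R M'') : FFM R M' := by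
  obtain ⟨k, hk⟩ := h''
  obtain ⟨n, p, hp, hK⟩ : FR R (k + 1) M'' := fr_succ hk
  -- the pullback
  let P : Submodule R (M × (Fin n → R)) :=
    LinearMap.ker ((g.comp (LinearMap.fst R M (Fin n → R))) -
      (p.comp (LinearMap.snd R M (Fin n → R))))
  have hP : ∀ z : M × (Fin n → R), z ∈ P ↔ g z.1 = p z.2 := by
    intro z
    rw [LinearMap.mem_ker, LinearMap.sub_apply]
    exact sub_eq_zero
  -- `0 → ker p → P → M → 0`
  let i : LinearMap.ker p →ₗ[R] P :=
    LinearMap.codRestrict _ ((LinearMap.inr R M (Fin n → R)).comp (LinearMap.ker p).subtype)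
      (fun x => by
        have hx : p x = 0 := x.2
        refine (hP _).2 ?_
        show g 0 = p x
        rw [hx, map_zero])
  let q : P →ₗ[R] M := (LinearMap.fst R M (Fin n → R)).comp P.subtype
  have hPf : FFM R P := by
    refine ffm_ext i q ?_ ?_ ?_ ⟨k, hK⟩ h
    · intro x y hxy
      have h1 : (i x).1.2 = (i y).1.2 := by rw [hxy]
      exact Subtype.ext h1
    · intro m
      obtain ⟨x, hx⟩ := hp (g m)
      exact ⟨⟨(m, x), (hP _).2 hx.symm⟩, rfl⟩
    · ext z
      constructor
      · rintro ⟨x, rfl⟩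
        rw [LinearMap.mem_ker]
        rfl
      · intro hz
        obtain ⟨⟨m, x⟩, hmx⟩ := z
        have hm : m = 0 := LinearMap.mem_ker.1 hz
        subst hm
        have h1 : p x = 0 := by
          have h2 := (hP _).1 hmx
          rw [← h2]
          exact map_zero g
        exact ⟨⟨x, h1⟩, rfl⟩
  -- `P ≃ M' × (Fin n → R)`
  obtain ⟨s, hs⟩ := Module.projective_lifting_property g p hg
  have hs' : ∀ y, g (s y) = p y := fun y => LinearMap.congr_fun hs y
  have hgf : ∀ x, g (f x) = 0 := by
    intro x
    have : f x ∈ LinearMap.ker g := by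
      rw [← hfg]
      exact ⟨_, rfl⟩
    exact this
  let u : M' × (Fin n → R) →ₗ[R] P :=
    LinearMap.codRestrict _ (LinearMap.prod (f.coprod s) (LinearMap.snd R M' (Fin n → R)))
      (fun z => by
        refine (hP _).2 ?_
        show g ((f.coprod s) z) = p z.2
        rw [LinearMap.coprod_apply, map_add, hgf, zero_add, hs'])
  have hu : Function.Bijective u := by
    constructor
    · rintro ⟨x, y⟩ ⟨x', y'⟩ h1
      have h2 : f x + s y = f x' + s y' := by
        have := congrArg (fun z : P => z.1.1) h1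
        simpa [u] using this
      have h3 : y = y' := by
        have := congrArg (fun z : P => z.1.2) h1
        simpa [u] using this
      subst h3
      have h4 : x = x' := hf (add_right_cancel h2)
      rw [h4]
    · rintro ⟨⟨m, y⟩, hmy⟩
      have h1 : g m = p y := (hP _).1 hmy
      have h2 : m - s y ∈ LinearMap.range f := by
        rw [hfg, LinearMap.mem_ker, map_sub, hs', h1, sub_self]
      obtain ⟨x, hx⟩ := h2
      refine ⟨(x, y), Subtype.ext ?_⟩
      show (f x + s y, y) = (m, y)
      rw [hx, sub_add_cancel]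
  exact ffm_prod_free n (ffm_equiv (LinearEquiv.ofBijective u hu).symm hPf)

theorem ffm_pi {r : ℕ} (N : Fin r → Type u) [∀ i, AddCommGroup (N i)] [∀ i, Module R (N i)]
    (h : ∀ i, FFM R (N i)) : FFM R (∀ i, N i) := by
  induction r with
  | zero =>
    refine ffm_equiv (M := Fin 0 → R) ?_ (ffm_free 0)
    exact LinearEquiv.ofBijective (0 : (Fin 0 → R) →ₗ[R] (∀ i, N i))
      ⟨fun _ _ _ => Subsingleton.elim _ _, fun y => ⟨0, Subsingleton.elim _ _⟩⟩
  | succ r ih =>
    let f : (∀ i : Fin r, N i.succ) →ₗ[R] (∀ i, N i) :=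
      { toFun := fun x => Fin.cons 0 x
        map_add' := fun x y => by
          funext i
          refine Fin.cases ?_ (fun j => ?_) i
          · simp
          · simp
        map_smul' := fun c x => by
          funext i
          refine Fin.cases ?_ (fun j => ?_) i
          · simp
          · simp }
    refine ffm_ext f (LinearMap.proj 0) ?_ ?_ ?_ (ih (fun i => N i.succ) (fun i => h i.succ)) (h 0)
    · intro x y hxy
      funext i
      have h1 := congrFun hxy i.succ
      simpa [f] using h1
    · intro y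
      exact ⟨Fin.cons y (fun _ => 0), by simp⟩
    · ext z
      constructor
      · rintro ⟨x, rfl⟩
        rw [LinearMap.mem_ker]
        simp [f]
      · intro hz
        have hz0 : z 0 = 0 := LinearMap.mem_ker.1 hz
        refine ⟨fun i => z i.succ, ?_⟩
        funext i
        refine Fin.cases ?_ (fun j => ?_) i
        · simp [f, hz0]
        · simp [f]

end Pool.Agent.Lib.FPT.I
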