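import Pool.Agent.Lib.FPT.I.Defs
import Pool.Agent.Lib.FPT.I.FRa
import Pool.Agent.Lib.FPT.I.FRb

set_option autoImplicit false
set_option linter.unusedVariables false

/-!
# FRc: matrices and modules

`HasRes`, `RowExact`, `FFR` are in TreeR1. `L A : (Fin m → R) →ₗ[R] (Fin n → R)`, `v ↦ vecMul v A`
(`Matrix.vecMulLinear`).
`hasRes_of_fr`: if `FR k (ker (L A))` then `HasRes R (k + 1) m n A`: induction on `k`. `k = 0`: the images of the
basis vectors are the rows of `B`, `RowExact B A`, and `L B` is injective. `k + 1`: `f : (Fin a → R) → ker (L A)`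
surjective, `B` the matrix of the composition with the inclusion; `RowExact B A`, `ker (L B) = ker f`, so
`HasRes (k + 1) a m B` by induction.
`fr_of_hasRes`: if `HasRes R k m n A` then `FR k (ker (L A))`: `k = 0`: the kernel is `0`; `k + 1`: `RowExact B A`
says that `L B` maps onto `ker (L A)`, with kernel `ker (L B)`, in `FR k` by induction.
`ffm_of_ffr`: `ker f = range (L A)`; `0 → ker (L A) → (Fin m → R) → ker f → 0`, so `ker f` is FFM, and then `M` by
definition of `FR (k + 1)`.
`ffr_of_ffm`: for a matrix `A` let `M` be the cokernel of `L A`, `FFM M`; `ffm_sub` twice: `range (L A)`, then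
`ker (L A)`; `hasRes_of_fr`.
`ffm_of_finite`: over a Noetherian ring choose a surjection from `Fin n → R`, its kernel is finitely generated,
by the rows of a matrix; `ffm_of_ffr`.
-/

universe u v w

namespace Pool.Agent.Lib.FPT.I

open Pool.Agent.Lib.MP_16fe43_al
open MulAction (stabilizer)
open Matrix (fromBlocks vecMul)
open scoped TensorProduct

variable {R : Type u} [Ring R]

/-- the matrix of a map of free modules -/
private theorem frc_mat {a m : ℕ} (f : (Fin a → R) →ₗ[R] (Fin m → R)) :
    ∃ B : Matrix (Fin a) (Fin m) R, ∀ t, vecMul t B = f t := by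
  refine ⟨fun i => f (Pi.single i 1), fun t => ?_⟩
  have h1 : t = ∑ i, t i • (Pi.single i (1 : R) : Fin a → R) := by
    funext j
    rw [Finset.sum_apply, Finset.sum_eq_single j]
    · simp
    · intro b _ hb
      simp [Pi.single_apply, hb.symm]
    · intro h
      exact absurd (Finset.mem_univ j) h
  conv_rhs => rw [h1]
  rw [map_sum]
  funext j
  rw [Finset.sum_apply]
  show ∑ i, t i * f (Pi.single i 1) j = _
  refine Finset.sum_congr rfl fun i _ => ?_
  rw [map_smul]
  rfl

private theorem frc_mem {m n : ℕ} (A : Matrix (Fin m) (Fin n) R) (v : Fin m → R) :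
    v ∈ LinearMap.ker A.vecMulLinear ↔ vecMul v A = 0 := by
  rw [LinearMap.mem_ker]
  rfl

private theorem frc_hasRes (k : ℕ) : ∀ (m n : ℕ) (A : Matrix (Fin m) (Fin n) R),
    FR R k (LinearMap.ker A.vecMulLinear) → HasRes R (k + 1) m n A := by
  induction k with
  | zero =>
    intro m n A h
    obtain ⟨a, ⟨e⟩⟩ := h
    obtain ⟨B, hB⟩ := frc_mat ((LinearMap.ker A.vecMulLinear).subtype.comp e.symm.toLinearMap)
    refine ⟨a, B, fun v => ?_, fun t ht => ?_⟩
    · constructor
      · intro hv
        refine ⟨e ⟨v, (frc_mem A v).2 hv⟩, ?_⟩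
        rw [hB, LinearMap.comp_apply]
        show v = (e.symm (e ⟨v, _⟩)).1
        rw [LinearEquiv.symm_apply_apply]
      · rintro ⟨t, rfl⟩
        rw [hB, LinearMap.comp_apply]
        exact (frc_mem A _).1 (e.symm t).2
    · rw [hB, LinearMap.comp_apply] at ht
      have h1 : e.symm t = 0 := Subtype.ext ht
      have h2 := congrArg e h1
      rwa [LinearEquiv.apply_symm_apply, map_zero] at h2
  | succ k ih =>
    intro m n A h
    obtain ⟨a, f, hf, hk⟩ := h
    obtain ⟨B, hB⟩ := frc_mat ((LinearMap.ker A.vecMulLinear).subtype.comp f)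
    refine ⟨a, B, fun v => ?_, ih a m B ?_⟩
    · constructor
      · intro hv
        obtain ⟨t, ht⟩ := hf ⟨v, (frc_mem A v).2 hv⟩
        refine ⟨t, ?_⟩
        rw [hB, LinearMap.comp_apply, ht]
        rfl
      · rintro ⟨t, rfl⟩
        rw [hB, LinearMap.comp_apply]
        exact (frc_mem A _).1 (f t).2
    · have h1 : LinearMap.ker B.vecMulLinear = LinearMap.ker f := by
        ext t
        rw [frc_mem, hB, LinearMap.comp_apply, LinearMap.mem_ker]
        constructor
        · intro h2
          exact Subtype.ext h2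
        · intro h2
          rw [h2]
          rfl
      rw [h1]
      exact hk

private theorem frc_fr (k : ℕ) : ∀ (m n : ℕ) (A : Matrix (Fin m) (Fin n) R),
    HasRes R k m n A → FR R k (LinearMap.ker A.vecMulLinear) := by
  induction k with
  | zero =>
    intro m n A h
    have h1 : LinearMap.ker A.vecMulLinear = ⊥ := by
      rw [eq_bot_iff]
      intro v hv
      exact (Submodule.mem_bot R).2 (h v ((frc_mem A v).1 hv))
    rw [h1]
    exact ⟨0, ⟨0⟩⟩
  | succ k ih =>
    intro m n A h
    obtain ⟨a, B, hBA, hB⟩ := h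
    have hm : ∀ t : Fin a → R, B.vecMulLinear t ∈ LinearMap.ker A.vecMulLinear := fun t =>
      (frc_mem A _).2 ((hBA _).2 ⟨t, rfl⟩)
    refine ⟨a, LinearMap.codRestrict _ B.vecMulLinear hm, ?_, ?_⟩
    · rintro ⟨v, hv⟩
      obtain ⟨t, ht⟩ := (hBA v).1 ((frc_mem A v).1 hv)
      exact ⟨t, Subtype.ext ht.symm⟩
    · rw [LinearMap.ker_codRestrict]
      exact ih a m B hB

theorem ffm_of_ffr (h : FFR R) {M : Type u} [AddCommGroup M] [Module R M] {m n : ℕ}
    (A : Matrix (Fin m) (Fin n) R) (f : (Fin n → R) →ₗ[R] M) (hf : Function.Surjective f)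
    (hA : ∀ x, f x = 0 ↔ ∃ y, x = vecMul y A) : FFM R M := by
  obtain ⟨k, hk⟩ := h m n A
  have h1 := frc_fr k m n A hk
  have hm : ∀ t : Fin m → R, A.vecMulLinear t ∈ LinearMap.ker f := fun t =>
    LinearMap.mem_ker.2 ((hA _).2 ⟨t, rfl⟩)
  have h2 : FFM R (LinearMap.ker f) := by
    refine ffm_quot (LinearMap.ker A.vecMulLinear).subtype
      (LinearMap.codRestrict (LinearMap.ker f) A.vecMulLinear hm) Subtype.val_injective ?_ ?_
      ⟨k, h1⟩ (ffm_free m)
    · rintro ⟨v, hv⟩
      obtain ⟨t, ht⟩ := (hA v).1 (LinearMap.mem_ker.1 hv)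
      exact ⟨t, Subtype.ext ht.symm⟩
    · rw [Submodule.range_subtype, LinearMap.ker_codRestrict]
  obtain ⟨l, hl⟩ := h2
  exact ⟨l + 1, n, f, hf, hl⟩

theorem ffr_of_ffm (h : ∀ (M : Type u) [AddCommGroup M] [Module R M] (m n : ℕ)
    (A : Matrix (Fin m) (Fin n) R) (f : (Fin n → R) →ₗ[R] M), Function.Surjective f →
    (∀ x, f x = 0 ↔ ∃ y, x = vecMul y A) → FFM R M) : FFR R := by
  intro m n A
  have h1 : FFM R ((Fin n → R) ⧸ LinearMap.range A.vecMulLinear) := by
    refine h _ m n A (LinearMap.range A.vecMulLinear).mkQ (Submodule.mkQ_surjective _) ?_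
    intro x
    rw [Submodule.mkQ_apply, Submodule.Quotient.mk_eq_zero]
    constructor
    · rintro ⟨y, rfl⟩
      exact ⟨y, rfl⟩
    · rintro ⟨y, rfl⟩
      exact ⟨y, rfl⟩
  have h2 : FFM R (LinearMap.range A.vecMulLinear) := by
    refine ffm_sub (LinearMap.range A.vecMulLinear).subtype (LinearMap.range A.vecMulLinear).mkQ
      Subtype.val_injective (Submodule.mkQ_surjective _) ?_ (ffm_free n) h1
    rw [Submodule.range_subtype, Submodule.ker_mkQ]
  have h3 : FFM R (LinearMap.ker A.vecMulLinear) := by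
    refine ffm_sub (LinearMap.ker A.vecMulLinear).subtype A.vecMulLinear.rangeRestrict
      Subtype.val_injective (LinearMap.surjective_rangeRestrict _) ?_ (ffm_free m) h2
    rw [Submodule.range_subtype, LinearMap.ker_rangeRestrict]
  obtain ⟨k, hk⟩ := h3
  exact ⟨k + 1, frc_hasRes k m n A hk⟩

theorem ffm_of_finite [IsNoetherianRing R] (h : FFR R) (M : Type u) [AddCommGroup M]
    [Module R M] [Module.Finite R M] : FFM R M := by
  obtain ⟨n, f, hf⟩ := Module.Finite.exists_fin' R M
  obtain ⟨m, g, hg⟩ := Submodule.fg_iff_exists_fin_generating_family.1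
    (IsNoetherian.noetherian (LinearMap.ker f))
  refine ffm_of_ffr h (m := m) (n := n) (fun i => g i) f hf ?_
  intro x
  have h1 : f x = 0 ↔ x ∈ LinearMap.ker f := Iff.rfl
  rw [h1, ← hg, Submodule.mem_span_range_iff_exists_fun]
  have h2 : ∀ c : Fin m → R, ∑ i, c i • g i = vecMul c (fun i => g i) := by
    intro c
    funext j
    rw [Finset.sum_apply]
    rfl
  constructor
  · rintro ⟨c, hc⟩
    exact ⟨c, by rw [← hc, h2]⟩
  · rintro ⟨c, hc⟩
    exact ⟨c, by rw [hc, h2]⟩

end Pool.Agent.Lib.FPT.I
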