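import Pool.Agent.Lib.FPT.I.Defs

set_option autoImplicit false
set_option linter.unusedVariables false

/-!
# MVb: the Mayer-Vietoris presentation is exact in the middle

PROOF of `dd_le_ker`: `ep (dI (a ⊗ m)) = (a t_i) • m - a • (t_i • m) = 0`; extend by linearity.
PROOF of `ker_le_dd`: let `N = (AF R r ⊗[R] M0) ⧸ range (dd M0)`, `[z]` the class. For `g ∈ S` and `j`:
`g • [1 ⊗ x_j] = [1 ⊗ (g • x_j)]` (`g • x_j ∈ M0`), by induction on `norm g`: `g = t_i * g'`: `m = g' • x_j ∈ M0`,
`t_i • m ∈ M0`, so `m ∈ MI M0 i` and `[t_i ⊗ m] = [1 ⊗ t_i m]`; `g = t_i⁻¹ * g'`: `m = g • x_j ∈ M0` and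
`t_i • m = g' • x_j ∈ M0`, so `t_i • [1 ⊗ m] = [1 ⊗ g' x_j] = g' • [1 ⊗ x_j]`. Let `σ : (Fin n → AF) → N` be the
`AF`-linear map with `e_j ↦ [1 ⊗ x_j]`. If `∑ c_j • x_j = 0` then `c = ∑ b_k • a_k` (`hrel`), and
`σ a_k = ∑_j ∑_g (a k j).coeff g • g • [1 ⊗ x_j] = [1 ⊗ ∑ (a k j).coeff g • g • x_j] = [1 ⊗ 0] = 0`, so `σ c = 0`. Hence
`σ` factors through `M` (`x ↦ σ c` for `x = ∑ c_j • x_j`, `hgen`): `σ' : M →ₗ N` with `σ' (x_j) = [1 ⊗ x_j]`, and
`σ' (ep z) = [z]`: check on `z = a ⊗ (g • x_j)`, `g ∈ S` (they generate, by `hM0`): `ep z = a • g • x_j`,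
`σ'` of it `= a • g • [1 ⊗ x_j] = a • [1 ⊗ g x_j] = [a ⊗ g x_j]`. So `ep z = 0` implies `[z] = 0`.
`ep_surjective`: `x_j = 1 • x_j ∈ M0`.
-/

universe u v w

namespace Pool.Agent.Lib.FPT.I

open Pool.Agent.Lib.MP_16fe43_al
open MulAction (stabilizer)
open Matrix (fromBlocks vecMul)
open scoped TensorProduct

variable {R : Type u} [CommRing R] {r : ℕ} {M : Type u} [AddCommGroup M] [Module R M]
  [Module (AF R r) M] [IsScalarTower R (AF R r) M]

section aux

private theorem gl_mul (g h : FreeGroup (Fin r)) : gl R r (g * h) = gl R r g * gl R r h := by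
  rw [MonoidAlgebra.single_mul_single, one_mul]

private theorem gl_one : gl R r 1 = 1 := rfl

private theorem eq_sum (S : Finset (FreeGroup (Fin r))) (p : AF R r)
    (h : ∀ g, p.coeff g ≠ 0 → g ∈ S) :
    p = ∑ g ∈ S, (MonoidAlgebra.single g (p.coeff g) : AF R r) := by
  apply MonoidAlgebra.ext
  rw [MonoidAlgebra.coeff_sum]
  ext x
  rw [Finsupp.finsetSum_apply]
  simp only [MonoidAlgebra.coeff_single]
  by_cases hx : x ∈ S
  · rw [Finset.sum_eq_single x]
    · rw [Finsupp.single_eq_same]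
    · intro b _ hb
      rw [Finsupp.single_eq_of_ne]
      exact fun e => hb e.symm
    · exact fun h' => absurd hx h'
  · rw [Finset.sum_eq_zero]
    · by_contra hne
      exact hx (h x hne)
    · intro b hb
      rw [Finsupp.single_eq_of_ne]
      rintro rfl
      exact hx hb

private theorem single_eq (g : FreeGroup (Fin r)) (c : R) :
    (MonoidAlgebra.single g c : AF R r) = c • gl R r g := by
  apply MonoidAlgebra.ext
  rw [MonoidAlgebra.coeff_smul, MonoidAlgebra.coeff_single, MonoidAlgebra.coeff_single,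
    Finsupp.smul_single, smul_eq_mul, mul_one]

end aux

theorem dd_le_ker (M0 : Submodule R M) :
    LinearMap.range (dd (r := r) M0) ≤ LinearMap.ker (ep (r := r) M0) := by
  rintro _ ⟨f, rfl⟩
  rw [LinearMap.mem_ker]
  have h : ∀ (i : Fin r) (z : AF R r ⊗[R] (MI M0 i)), ep M0 (dI M0 i z) = 0 := by
    intro i z
    induction z using TensorProduct.induction_on with
    | zero => rw [map_zero, map_zero]
    | tmul a m =>
      rw [dI_tmul, map_sub, ep_tmul, ep_tmul, mul_smul]
      exact sub_self _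
    | add y z hy hz => rw [map_add, map_add, hy, hz, add_zero]
  rw [dd, LinearMap.sum_apply, map_sum]
  exact Finset.sum_eq_zero fun i _ => h i _

theorem ker_le_dd (M0 : Submodule R M) (S : Finset (FreeGroup (Fin r))) (h1 : 1 ∈ S)
    (hS : ∀ g ∈ S, g ≠ 1 → ∃ (i : Fin r) (g' : FreeGroup (Fin r)), g' ∈ S ∧
      g'.norm < g.norm ∧ (g = FreeGroup.of i * g' ∨ g = (FreeGroup.of i)⁻¹ * g'))
    {m n : ℕ} (x : Fin n → M)
    (hM0 : M0 = Submodule.span R {y | ∃ g ∈ S, ∃ j, y = gl R r g • x j})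
    (hgen : ∀ y : M, ∃ c : Fin n → AF R r, y = ∑ j, c j • x j)
    (a : Matrix (Fin m) (Fin n) (AF R r)) (ha : ∀ k j g, (a k j).coeff g ≠ 0 → g ∈ S)
    (hrel : ∀ c : Fin n → AF R r, ∑ j, c j • x j = 0 ↔ ∃ b, c = vecMul b a) :
    LinearMap.ker (ep (r := r) M0) ≤ LinearMap.range (dd (r := r) M0) := by
  classical
  have mem : ∀ g ∈ S, ∀ j, gl R r g • x j ∈ M0 := by
    intro g hg j
    rw [hM0]
    exact Submodule.subset_span ⟨g, hg, j, rfl⟩
  have memx : ∀ j, x j ∈ M0 := by
    intro j
    have := mem 1 h1 j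
    rwa [gl_one, one_smul] at this
  let q : AF R r ⊗[R] M0 →ₗ[AF R r] (AF R r ⊗[R] M0) ⧸ LinearMap.range (dd (r := r) M0) :=
    Submodule.mkQ (LinearMap.range (dd (r := r) M0))
  -- the relation
  have rel : ∀ (i : Fin r) (m : MI M0 i),
      gl R r (FreeGroup.of i) • q (1 ⊗ₜ[R] (inM M0 i m)) = q (1 ⊗ₜ[R] (tM M0 i m)) := by
    intro i m
    rw [← map_smul, ← sub_eq_zero, ← map_sub]
    have h2 : gl R r (FreeGroup.of i) • ((1 : AF R r) ⊗ₜ[R] (inM M0 i m)) -
        (1 : AF R r) ⊗ₜ[R] (tM M0 i m) = dI M0 i ((1 : AF R r) ⊗ₜ[R] m) := by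
      rw [dI_tmul, TensorProduct.smul_tmul', smul_eq_mul, mul_one, one_mul]
    rw [h2]
    have h3 : dI M0 i ((1 : AF R r) ⊗ₜ[R] m) ∈ LinearMap.range (dd (r := r) M0) := by
      refine ⟨Pi.single i ((1 : AF R r) ⊗ₜ[R] m), ?_⟩
      rw [dd, LinearMap.sum_apply, Finset.sum_eq_single i]
      · rw [LinearMap.comp_apply, LinearMap.proj_apply, Pi.single_eq_same]
      · intro b _ hb
        rw [LinearMap.comp_apply, LinearMap.proj_apply, Pi.single_eq_of_ne hb, map_zero]
      · exact fun h' => absurd (Finset.mem_univ _) h'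
    exact (Submodule.Quotient.mk_eq_zero _).mpr h3
  -- the elements `e j`
  let e : Fin n → (AF R r ⊗[R] M0) ⧸ LinearMap.range (dd (r := r) M0) :=
    fun j => q ((1 : AF R r) ⊗ₜ[R] (⟨x j, memx j⟩ : M0))
  have key : ∀ (N : ℕ) (g : FreeGroup (Fin r)) (hg : g ∈ S) (_ : g.norm = N) (j : Fin n),
      q ((1 : AF R r) ⊗ₜ[R] (⟨gl R r g • x j, mem g hg j⟩ : M0)) = gl R r g • e j := by
    intro N
    induction N using Nat.strong_induction_on with
    | _ N ih =>
      intro g hg hN j
      by_cases hg1 : g = 1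
      · subst hg1
        have h20 : (⟨gl R r 1 • x j, mem 1 hg j⟩ : M0) = ⟨x j, memx j⟩ := Subtype.ext (by
          change gl R r 1 • x j = x j
          rw [gl_one, one_smul])
        rw [h20]
        exact (one_smul (AF R r) (e j)).symm
      · obtain ⟨i, g', hg', hlt, hor⟩ := hS g hg hg1
        have h4 := ih g'.norm (hN ▸ hlt) g' hg' rfl j
        rcases hor with hor | hor
        · have h5 : gl R r g • x j = gl R r (FreeGroup.of i) • gl R r g' • x j := by
            rw [hor, gl_mul, mul_smul]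
          have h6 : (⟨gl R r g' • x j, mem g' hg' j⟩ : M0).1 ∈ MI M0 i := by
            refine ⟨mem g' hg' j, ?_⟩
            change gl R r (FreeGroup.of i) • gl R r g' • x j ∈ M0
            rw [← h5]
            exact mem g hg j
          have h7 := rel i ⟨gl R r g' • x j, h6⟩
          have h8 : inM M0 i ⟨gl R r g' • x j, h6⟩ = ⟨gl R r g' • x j, mem g' hg' j⟩ := rfl
          have h9 : tM M0 i ⟨gl R r g' • x j, h6⟩ = ⟨gl R r g • x j, mem g hg j⟩ :=
            Subtype.ext h5.symm
          rw [h8, h9, h4, ← mul_smul, ← gl_mul, ← hor] at h7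
          exact h7.symm
        · have h5 : gl R r (FreeGroup.of i) • gl R r g • x j = gl R r g' • x j := by
            rw [← mul_smul, ← gl_mul, hor, mul_inv_cancel_left]
          have h6 : gl R r g • x j ∈ MI M0 i := by
            refine ⟨mem g hg j, ?_⟩
            change gl R r (FreeGroup.of i) • gl R r g • x j ∈ M0
            rw [h5]
            exact mem g' hg' j
          have h7 := rel i ⟨gl R r g • x j, h6⟩
          have h8 : inM M0 i ⟨gl R r g • x j, h6⟩ = ⟨gl R r g • x j, mem g hg j⟩ := rfl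
          have h9 : tM M0 i ⟨gl R r g • x j, h6⟩ = ⟨gl R r g' • x j, mem g' hg' j⟩ :=
            Subtype.ext h5
          rw [h8, h9, h4] at h7
          have h10 := congrArg (fun z => gl R r (FreeGroup.of i)⁻¹ • z) h7
          simp only [← mul_smul, ← gl_mul] at h10
          rw [inv_mul_cancel, gl_one, one_smul, ← hor] at h10
          exact h10
  -- the element of the group ring times `e j`
  have keyS : ∀ (c : R) (g : FreeGroup (Fin r)) (hg : g ∈ S) (j : Fin n),
      (MonoidAlgebra.single g c : AF R r) • e j =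
        q ((1 : AF R r) ⊗ₜ[R] (c • (⟨gl R r g • x j, mem g hg j⟩ : M0))) := by
    intro c g hg j
    have h21 : (MonoidAlgebra.single g c : AF R r) = (c • (1 : AF R r)) * gl R r g := by
      rw [smul_mul_assoc, one_mul, single_eq]
    rw [h21, mul_smul, ← key _ g hg rfl j, ← map_smul,
      TensorProduct.smul_tmul', smul_eq_mul, mul_one, TensorProduct.smul_tmul]
  have hz : ∀ c : Fin n → AF R r, ∑ j, c j • x j = 0 → ∑ j, c j • e j = 0 := by
    intro c hc
    obtain ⟨b, rfl⟩ := (hrel c).mp hc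
    have h11 : ∀ k, ∑ j, a k j • e j = 0 := by
      intro k
      have h12 : ∑ j, a k j • x j = 0 := by
        refine (hrel (a k)).mpr ⟨Pi.single k 1, ?_⟩
        funext j
        rw [Matrix.vecMul, dotProduct, Finset.sum_eq_single k]
        · rw [Pi.single_eq_same, one_mul]
        · intro b _ hb
          rw [Pi.single_eq_of_ne hb, zero_mul]
        · exact fun h' => absurd (Finset.mem_univ _) h'
      have h13 : ∀ j, a k j • e j = ∑ g ∈ S.attach, q ((1 : AF R r) ⊗ₜ[R]
          ((a k j).coeff g.1 • (⟨gl R r g.1 • x j, mem g.1 g.2 j⟩ : M0))) := by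
        intro j
        conv_lhs => rw [eq_sum S (a k j) (ha k j), Finset.sum_smul, ← Finset.sum_attach]
        exact Finset.sum_congr rfl fun g _ => keyS _ g.1 g.2 j
      have h14 : ∑ j, a k j • e j = q ((1 : AF R r) ⊗ₜ[R]
          (∑ j, ∑ g ∈ S.attach, (a k j).coeff g.1 • (⟨gl R r g.1 • x j, mem g.1 g.2 j⟩ : M0))) := by
        rw [TensorProduct.tmul_sum, map_sum]
        refine Finset.sum_congr rfl fun j _ => ?_
        rw [h13 j, TensorProduct.tmul_sum, map_sum]
      rw [h14]
      have h15 : (∑ j, ∑ g ∈ S.attach, (a k j).coeff g.1 •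
          (⟨gl R r g.1 • x j, mem g.1 g.2 j⟩ : M0)) = 0 := by
        apply Subtype.ext
        rw [Submodule.coe_sum, Submodule.coe_zero, ← h12]
        refine Finset.sum_congr rfl fun j _ => ?_
        rw [Submodule.coe_sum]
        conv_rhs => rw [eq_sum S (a k j) (ha k j), Finset.sum_smul, ← Finset.sum_attach]
        refine Finset.sum_congr rfl fun g _ => ?_
        change (a k j).coeff g.1 • gl R r g.1 • x j = _
        rw [single_eq, smul_assoc]
      rw [h15, TensorProduct.tmul_zero, map_zero]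
    have h16 : ∀ j, vecMul b a j • e j = ∑ k, b k • a k j • e j := by
      intro j
      rw [Matrix.vecMul, dotProduct, Finset.sum_smul]
      exact Finset.sum_congr rfl fun k _ => mul_smul _ _ _
    rw [Finset.sum_congr rfl fun j _ => h16 j, Finset.sum_comm]
    refine Finset.sum_eq_zero fun k _ => ?_
    rw [← Finset.smul_sum, h11, smul_zero]
  -- every element
  have hM : ∀ y (hy : y ∈ M0), ∃ c : Fin n → AF R r, y = ∑ j, c j • x j ∧
      q ((1 : AF R r) ⊗ₜ[R] (⟨y, hy⟩ : M0)) = ∑ j, c j • e j := by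
    have h17 : ∀ y ∈ Submodule.span R {y | ∃ g ∈ S, ∃ j, y = gl R r g • x j},
        ∃ hy : y ∈ M0, ∃ c : Fin n → AF R r, y = ∑ j, c j • x j ∧
          q ((1 : AF R r) ⊗ₜ[R] (⟨y, hy⟩ : M0)) = ∑ j, c j • e j := by
      intro y hy
      induction hy using Submodule.span_induction with
      | mem y hy =>
        obtain ⟨g, hg, j, rfl⟩ := hy
        refine ⟨mem g hg j, Pi.single j (gl R r g), ?_, ?_⟩
        · rw [Finset.sum_eq_single j]
          · rw [Pi.single_eq_same]
          · intro b _ hb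
            rw [Pi.single_eq_of_ne hb, zero_smul]
          · exact fun h' => absurd (Finset.mem_univ _) h'
        · rw [key _ g hg rfl j, Finset.sum_eq_single j]
          · rw [Pi.single_eq_same]
          · intro b _ hb
            rw [Pi.single_eq_of_ne hb, zero_smul]
          · exact fun h' => absurd (Finset.mem_univ _) h'
      | zero =>
        refine ⟨M0.zero_mem, 0, ?_, ?_⟩
        · simp
        · have h18 : (⟨0, M0.zero_mem⟩ : M0) = 0 := rfl
          rw [h18, TensorProduct.tmul_zero, map_zero]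
          simp
      | add y z _ _ hy hz =>
        obtain ⟨hy, c, hc1, hc2⟩ := hy
        obtain ⟨hz, d, hd1, hd2⟩ := hz
        refine ⟨M0.add_mem hy hz, c + d, ?_, ?_⟩
        · rw [hc1, hd1, ← Finset.sum_add_distrib]
          exact Finset.sum_congr rfl fun j _ => (add_smul _ _ _).symm
        · have h18 : (⟨y + z, M0.add_mem hy hz⟩ : M0) = ⟨y, hy⟩ + ⟨z, hz⟩ := rfl
          rw [h18, TensorProduct.tmul_add, map_add, hc2, hd2, ← Finset.sum_add_distrib]
          exact Finset.sum_congr rfl fun j _ => (add_smul _ _ _).symm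
      | smul s y _ hy =>
        obtain ⟨hy, c, hc1, hc2⟩ := hy
        refine ⟨M0.smul_mem s hy, fun j => (s • (1 : AF R r)) * c j, ?_, ?_⟩
        · conv_lhs => rw [hc1, Finset.smul_sum]
          refine Finset.sum_congr rfl fun j _ => ?_
          change s • c j • x j = ((s • (1 : AF R r)) * c j) • x j
          rw [smul_mul_assoc, one_mul, smul_assoc]
        · have h18 : (⟨s • y, M0.smul_mem s hy⟩ : M0) = s • ⟨y, hy⟩ := rfl
          rw [h18, ← TensorProduct.smul_tmul]
          have h19 : (s • (1 : AF R r)) ⊗ₜ[R] (⟨y, hy⟩ : M0) =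
              (s • (1 : AF R r)) • ((1 : AF R r) ⊗ₜ[R] (⟨y, hy⟩ : M0)) := by
            rw [TensorProduct.smul_tmul', smul_eq_mul, mul_one]
          rw [h19, map_smul, hc2, Finset.smul_sum]
          exact Finset.sum_congr rfl fun j _ => (mul_smul _ _ _).symm
    intro y hy
    obtain ⟨_, h⟩ := h17 y (hM0 ▸ hy)
    exact h
  have hall : ∀ z : AF R r ⊗[R] M0, ∃ c : Fin n → AF R r, ep M0 z = ∑ j, c j • x j ∧
      q z = ∑ j, c j • e j := by
    intro z
    induction z using TensorProduct.induction_on with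
    | zero => exact ⟨0, by simp, by simp⟩
    | tmul a' m =>
      obtain ⟨y, hy⟩ := m
      obtain ⟨c, hc1, hc2⟩ := hM y hy
      refine ⟨fun j => a' * c j, ?_, ?_⟩
      · rw [ep_tmul]
        change a' • y = _
        rw [hc1, Finset.smul_sum]
        exact Finset.sum_congr rfl fun j _ => (mul_smul _ _ _).symm
      · have h19 : a' ⊗ₜ[R] (⟨y, hy⟩ : M0) = a' • ((1 : AF R r) ⊗ₜ[R] (⟨y, hy⟩ : M0)) := by
          rw [TensorProduct.smul_tmul', smul_eq_mul, mul_one]
        rw [h19, map_smul, hc2, Finset.smul_sum]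
        exact Finset.sum_congr rfl fun j _ => (mul_smul _ _ _).symm
    | add y z hy hz =>
      obtain ⟨c, hc1, hc2⟩ := hy
      obtain ⟨d, hd1, hd2⟩ := hz
      refine ⟨c + d, ?_, ?_⟩
      · rw [map_add, hc1, hd1, ← Finset.sum_add_distrib]
        exact Finset.sum_congr rfl fun j _ => (add_smul _ _ _).symm
      · rw [map_add, hc2, hd2, ← Finset.sum_add_distrib]
        exact Finset.sum_congr rfl fun j _ => (add_smul _ _ _).symm
  intro z hker
  obtain ⟨c, hc1, hc2⟩ := hall z
  rw [LinearMap.mem_ker] at hker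
  rw [hker] at hc1
  rw [hz c hc1.symm] at hc2
  exact (Submodule.Quotient.mk_eq_zero _).mp hc2

theorem ep_surjective (M0 : Submodule R M) {n : ℕ} (x : Fin n → M) (hx : ∀ j, x j ∈ M0)
    (hgen : ∀ y : M, ∃ c : Fin n → AF R r, y = ∑ j, c j • x j) :
    Function.Surjective (ep (r := r) M0) := by
  intro y
  obtain ⟨c, rfl⟩ := hgen y
  refine ⟨∑ j, c j ⊗ₜ[R] (⟨x j, hx j⟩ : M0), ?_⟩
  rw [map_sum]
  rfl

/-- finite sets closed under the removal of the first letter -/
theorem exists_good_set (s : Finset (FreeGroup (Fin r))) :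
    ∃ S : Finset (FreeGroup (Fin r)), s ⊆ S ∧ 1 ∈ S ∧ ∀ g ∈ S, g ≠ 1 →
      ∃ (i : Fin r) (g' : FreeGroup (Fin r)), g' ∈ S ∧
        g'.norm < g.norm ∧ (g = FreeGroup.of i * g' ∨ g = (FreeGroup.of i)⁻¹ * g') := by
  classical
  have h1 : ∀ (N : ℕ) (g : FreeGroup (Fin r)), g.norm = N →
      ∃ S : Finset (FreeGroup (Fin r)), g ∈ S ∧ 1 ∈ S ∧ ∀ g ∈ S, g ≠ 1 →
      ∃ (i : Fin r) (g' : FreeGroup (Fin r)), g' ∈ S ∧
        g'.norm < g.norm ∧ (g = FreeGroup.of i * g' ∨ g = (FreeGroup.of i)⁻¹ * g') := by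
    intro N
    induction N using Nat.strong_induction_on with
    | _ N ih =>
      intro g hN
      by_cases hg1 : g = 1
      · subst hg1
        refine ⟨{1}, Finset.mem_singleton_self _, Finset.mem_singleton_self _, ?_⟩
        intro g hg hne
        exact absurd (Finset.mem_singleton.mp hg) hne
      · have h2 : g.toWord ≠ [] := fun h => hg1 (FreeGroup.toWord_eq_nil_iff.mp h)
        obtain ⟨⟨i, b⟩, L, hL⟩ := List.exists_cons_of_ne_nil h2
        have h3 : (FreeGroup.mk L).norm < g.norm := by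
          refine lt_of_le_of_lt FreeGroup.norm_mk_le ?_
          rw [FreeGroup.norm, hL, List.length_cons]
          exact Nat.lt_succ_self _
        have h4 : g = FreeGroup.of i * FreeGroup.mk L ∨ g = (FreeGroup.of i)⁻¹ * FreeGroup.mk L := by
          have h5 : g = FreeGroup.mk [(i, b)] * FreeGroup.mk L := by
            rw [FreeGroup.mul_mk, ← FreeGroup.mk_toWord (x := g), hL]
            rfl
          cases b with
          | true => exact Or.inl h5
          | false =>
            right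
            rw [h5]
            rfl
        obtain ⟨S, hS1, hS2, hS3⟩ := ih _ (hN ▸ h3) (FreeGroup.mk L) rfl
        refine ⟨insert g S, Finset.mem_insert_self _ _, Finset.mem_insert_of_mem hS2, ?_⟩
        intro h hh hne
        rcases Finset.mem_insert.mp hh with rfl | hh
        · exact ⟨i, FreeGroup.mk L, Finset.mem_insert_of_mem hS1, h3, h4⟩
        · obtain ⟨i', g', hg', h5, h6⟩ := hS3 h hh hne
          exact ⟨i', g', Finset.mem_insert_of_mem hg', h5, h6⟩
  induction s using Finset.induction_on with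
  | empty =>
    obtain ⟨S, _, hS2, hS3⟩ := h1 _ 1 rfl
    exact ⟨S, Finset.empty_subset _, hS2, hS3⟩
  | insert g s _ ih =>
    obtain ⟨S, hS1, hS2, hS3⟩ := ih
    obtain ⟨T, hT1, hT2, hT3⟩ := h1 _ g rfl
    refine ⟨S ∪ T, ?_, Finset.mem_union_left _ hS2, ?_⟩
    · intro y hy
      rcases Finset.mem_insert.mp hy with rfl | hy
      · exact Finset.mem_union_right _ hT1
      · exact Finset.mem_union_left _ (hS1 hy)
    · intro h hh hne
      rcases Finset.mem_union.mp hh with hh | hh
      · obtain ⟨i', g', hg', h5, h6⟩ := hS3 h hh hne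
        exact ⟨i', g', Finset.mem_union_left _ hg', h5, h6⟩
      · obtain ⟨i', g', hg', h5, h6⟩ := hT3 h hh hne
        exact ⟨i', g', Finset.mem_union_right _ hg', h5, h6⟩

end Pool.Agent.Lib.FPT.I
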