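import Pool.Agent.Lib.FPT.I.Defs

set_option autoImplicit false
set_option linter.unusedVariables false

/-!
# SUBG: the subgroups of `F × ℤ^k`, `F` free

PROOF. Let `p : D → FreeGroup α` be the first projection, `R0 = p.range`, a free group
(`subgroupIsFreeOfIsFree`; `IsFreeGroup.toFreeGroup` or `IsFreeGroup.mulEquiv`: `FreeGroup β ≃* R0`). Choose a section
`σ : R0 →* D` (lift of the generators). The kernel `K` of `p` consists of elements `(1, z)`, so it is central in
`D`, and it embeds into `ℤ^k`: a subgroup of a finitely generated free abelian group, so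
`K ≃* (Fin j → Multiplicative ℤ)` (`Submodule.nonempty_basis_of_pid` for the `ℤ`-submodule of `Fin k → ℤ`,
`AddSubgroup.toIntSubmodule`). `D ≃* R0 × K`: `(x, y) ↦ σ x * y`, inverse `d ↦ (p d, (σ (p d))⁻¹ * d)`.
-/

universe u v w

namespace Pool.Agent.Lib.FPT.I

open Pool.Agent.Lib.MP_16fe43_al
open MulAction (stabilizer)
open Matrix (fromBlocks vecMul)
open scoped TensorProduct

private theorem SUBG_zpow (k : ℕ) (C : Subgroup (Fin k → Multiplicative ℤ)) :
    ∃ j : ℕ, Nonempty (C ≃* (Fin j → Multiplicative ℤ)) := by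
  let A0 : AddSubgroup (Fin k → ℤ) :=
    { carrier := {x | (fun i => Multiplicative.ofAdd (x i)) ∈ C}
      zero_mem' := C.one_mem
      add_mem' := fun {a b} ha hb => C.mul_mem ha hb
      neg_mem' := fun {a} ha => C.inv_mem ha }
  let A : Submodule ℤ (Fin k → ℤ) := AddSubgroup.toIntSubmodule A0
  obtain ⟨n, ⟨b⟩⟩ := Submodule.nonempty_basis_of_pid (Pi.basisFun ℤ (Fin k)) A
  let e : A ≃ₗ[ℤ] (Fin n → ℤ) := b.equivFun
  refine ⟨n, ⟨
    { toFun := fun c i => Multiplicative.ofAdd (e ⟨fun i => Multiplicative.toAdd (c.1 i), c.2⟩ i)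
      invFun := fun y => ⟨fun i => Multiplicative.ofAdd
        ((e.symm (fun i => Multiplicative.toAdd (y i)) : A).1 i),
        (e.symm (fun i => Multiplicative.toAdd (y i)) : A).2⟩
      left_inv := fun c => by
        apply Subtype.ext
        funext i
        show Multiplicative.ofAdd ((e.symm (e ⟨fun i => Multiplicative.toAdd (c.1 i), c.2⟩) : A).1 i)
          = c.1 i
        rw [LinearEquiv.symm_apply_apply]
        rfl
      right_inv := fun y => by
        funext i
        show Multiplicative.ofAdd (e (e.symm (fun i => Multiplicative.toAdd (y i))) i) = y i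
        rw [LinearEquiv.apply_symm_apply]
        rfl
      map_mul' := fun c d => by
        funext i
        exact congrFun (map_add e ⟨fun i => Multiplicative.toAdd (c.1 i), c.2⟩
          ⟨fun i => Multiplicative.toAdd (d.1 i), d.2⟩) i }⟩⟩

theorem sub_free_prod (α : Type) (k : ℕ)
    (D : Subgroup (FreeGroup α × (Fin k → Multiplicative ℤ))) :
    ∃ (β : Type) (j : ℕ), Nonempty (D ≃* FreeGroup β × (Fin j → Multiplicative ℤ)) := by
  let p : D →* FreeGroup α := (MonoidHom.fst (FreeGroup α) (Fin k → Multiplicative ℤ)).comp D.subtype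
  let q : D →* (Fin k → Multiplicative ℤ) :=
    (MonoidHom.snd (FreeGroup α) (Fin k → Multiplicative ℤ)).comp D.subtype
  have hpq : ∀ d e : D, p d = p e → q d = q e → d = e := fun d e h1 h2 =>
    Subtype.ext (Prod.ext h1 h2)
  -- the kernel
  let K : Subgroup D := p.ker
  have hq : Function.Injective (q.comp K.subtype) := by
    intro x y hxy
    refine Subtype.ext (hpq _ _ ?_ hxy)
    rw [MonoidHom.mem_ker.1 x.2, MonoidHom.mem_ker.1 y.2]
  obtain ⟨j, ⟨e2⟩⟩ := SUBG_zpow k (q.comp K.subtype).range
  have e1 : K ≃* (Fin j → Multiplicative ℤ) := (MonoidHom.ofInjective hq).trans e2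
  -- the image
  have hR : IsFreeGroup p.range := subgroupIsFreeOfIsFree p.range
  let g : p.range ≃* FreeGroup (IsFreeGroup.Generators p.range) := IsFreeGroup.toFreeGroup p.range
  choose s hs using fun b : IsFreeGroup.Generators p.range => (g.symm (FreeGroup.of b)).2
  let σ : p.range →* D := (FreeGroup.lift s).comp g.toMonoidHom
  have hσ0 : p.comp (FreeGroup.lift s) = p.range.subtype.comp g.symm.toMonoidHom := by
    apply FreeGroup.ext_hom
    intro b
    rw [MonoidHom.comp_apply, FreeGroup.lift_apply_of, hs]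
    rfl
  have hσ : ∀ x : p.range, p (σ x) = x := by
    intro x
    have h1 := DFunLike.congr_fun hσ0 (g x)
    have h2 : p.range.subtype (g.symm (g x)) = x := by
      rw [MulEquiv.symm_apply_apply]
      rfl
    exact h1.trans h2
  have hcomm : ∀ (x : p.range) (y : K), Commute (σ x) (K.subtype y) := by
    intro x y
    refine hpq _ _ ?_ ?_
    · have h1 : p (K.subtype y) = 1 := MonoidHom.mem_ker.1 y.2
      rw [map_mul, map_mul, h1, mul_one, one_mul]
    · rw [map_mul, map_mul, mul_comm]
  let f : p.range × K →* D := MonoidHom.noncommCoprod σ K.subtype hcomm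
  have hf : ∀ x, f x = σ x.1 * (x.2 : D) := fun x => rfl
  have hinj : Function.Injective f := by
    rw [injective_iff_map_eq_one]
    rintro ⟨x, y⟩ hxy
    rw [hf] at hxy
    have h1 := congrArg p hxy
    have h2 : p ((x, y).2 : D) = 1 := MonoidHom.mem_ker.1 y.2
    rw [map_mul, h2, mul_one, hσ, map_one] at h1
    have h3 : x = 1 := Subtype.ext h1
    subst h3
    rw [map_one, one_mul] at hxy
    exact Prod.ext rfl (Subtype.ext hxy)
  have hsurj : Function.Surjective f := by
    intro d
    refine ⟨(⟨p d, d, rfl⟩, ⟨(σ ⟨p d, d, rfl⟩)⁻¹ * d, ?_⟩), ?_⟩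
    · rw [MonoidHom.mem_ker, map_mul, map_inv, hσ]
      exact inv_mul_cancel _
    · rw [hf]
      exact mul_inv_cancel_left _ _
  let E : p.range × K ≃* D := MulEquiv.ofBijective f ⟨hinj, hsurj⟩
  exact ⟨IsFreeGroup.Generators p.range, j, ⟨E.symm.trans (MulEquiv.prodCongr g e1)⟩⟩

end Pool.Agent.Lib.FPT.I
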